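import Pool.Agent.Helper8.TB.St

set_option autoImplicit false

namespace Pool.Helper8.TB

theorem jt_inner {m : ℕ} (J : W m →ₗᵢ[ℝ] W (m + 1)) (x : W (m + 1)) (y : W m) :
    (inner ℝ (Jt J x) y : ℝ) = inner ℝ x (J y) := by
  unfold Jt
  rw [ContinuousLinearMap.adjoint_inner_left]
  rfl

theorem jt_J {m : ℕ} (J : W m →ₗᵢ[ℝ] W (m + 1)) (y : W m) : Jt J (J y) = y := by
  apply ext_inner_right ℝ
  intro v
  rw [jt_inner, LinearIsometry.inner_map_map]

theorem hChart : StChart := by
  intro m J u hF
  have hJt := jt_inner J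
  have hJJ := jt_J J
  have h0 : Jt J u = 0 := by
    apply ext_inner_right ℝ
    intro v
    rw [jt_inner, inner_zero_left, real_inner_comm]
    exact hF.hJ v
  -- the projection formula
  have hP : ∀ x, J (Jt J x) = x - (inner ℝ x u : ℝ) • u := by
    intro x
    have hr : LinearMap.range J.toLinearMap = (Submodule.span ℝ {u})ᗮ := by
      apply Submodule.eq_of_le_of_finrank_le
      · rintro _ ⟨y, rfl⟩
        rw [Submodule.mem_orthogonal_singleton_iff_inner_right]
        rw [real_inner_comm]
        exact hF.hJ y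
      · have hu0 : u ≠ 0 := by
          intro h
          have := hF.hu
          rw [h, norm_zero] at this
          exact zero_ne_one this
        have h1 : Module.finrank ℝ (Submodule.span ℝ {u})ᗮ = m := by
          have : Fact (Module.finrank ℝ (W (m + 1)) = m + 1) := ⟨by simp⟩
          exact Submodule.finrank_orthogonal_span_singleton hu0
        have h2 : Module.finrank ℝ (LinearMap.range J.toLinearMap) = m := by
          rw [LinearMap.finrank_range_of_inj J.injective]
          simp
        rw [h1, h2]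
    have hmem : x - (inner ℝ x u : ℝ) • u ∈ LinearMap.range J.toLinearMap := by
      rw [hr, Submodule.mem_orthogonal_singleton_iff_inner_right, inner_sub_right, inner_smul_right,
        real_inner_self_eq_norm_sq, hF.hu, real_inner_comm]
      ring
    obtain ⟨z, hz⟩ := hmem
    have hz' : J z = x - (inner ℝ x u : ℝ) • u := hz
    have : Jt J x = z := by
      have h3 : x = J z + (inner ℝ x u : ℝ) • u := by rw [hz']; abel
      rw [h3, map_add, map_smul, h0, smul_zero, add_zero, hJJ]
    rw [this, hz']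
  refine ⟨hP, hJJ, hJt, h0, ?_, ?_⟩
  · intro y hy
    have hs : 0 < 1 - ‖y‖ ^ 2 := by nlinarith [norm_nonneg y]
    have hss := Real.sq_sqrt hs.le
    have hi : (inner ℝ (nu J u y) u : ℝ) = Real.sqrt (1 - ‖y‖ ^ 2) := by
      unfold nu
      rw [inner_add_left, hF.hJ, inner_smul_left, real_inner_self_eq_norm_sq, hF.hu]
      simp
    refine ⟨?_, hi, ?_, ?_⟩
    · have h1 : ‖nu J u y‖ ^ 2 = 1 := by
        unfold nu
        rw [norm_add_sq_real, inner_smul_right, hF.hJ, norm_smul, hF.hu, J.norm_map]
        simp only [Real.norm_eq_abs, mul_one, mul_zero, add_zero, sq_abs]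
        rw [hss]
        ring
      have h2 := norm_nonneg (nu J u y)
      nlinarith
    · rw [hi]
      exact Real.sqrt_pos.mpr hs
    · unfold nu
      rw [map_add, map_smul, h0, smul_zero, add_zero, hJJ]
  · intro ν hν hpos
    have h1 : J (Jt J ν) + (inner ℝ ν u : ℝ) • u = ν := by rw [hP]; abel
    have h2 : ‖Jt J ν‖ ^ 2 + (inner ℝ ν u : ℝ) ^ 2 = 1 := by
      have h3 : ‖ν‖ ^ 2 = 1 := by rw [hν]; norm_num
      rw [← h1, norm_add_sq_real, inner_smul_right, hF.hJ, norm_smul, hF.hu, J.norm_map] at h3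
      simp only [Real.norm_eq_abs, mul_one, mul_zero, add_zero, sq_abs] at h3
      exact h3
    refine ⟨Jt J ν, ?_, ?_⟩
    · have h4 : ‖Jt J ν‖ ^ 2 < 1 := by nlinarith
      nlinarith [norm_nonneg (Jt J ν)]
    · unfold nu
      have h5 : Real.sqrt (1 - ‖Jt J ν‖ ^ 2) = inner ℝ ν u := by
        rw [show 1 - ‖Jt J ν‖ ^ 2 = (inner ℝ ν u : ℝ) ^ 2 by linarith]
        exact Real.sqrt_sq hpos.le
      rw [h5, h1]

end Pool.Helper8.TB
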