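import Pool.Agent.Helper8.TB.M_Main

set_option autoImplicit false

namespace Pool.Helper8.TB

open MeasureTheory

theorem hFinal (hDat : StDat) (hSup : StSup) (hBody : StBody) (hBri : StBri) (hFrame : StFrame)
    (hGeo : StGeo) (hNB : StNB) (hCpt : StCpt) :
    ∀ n : ℕ, 3 ≤ n → ∀ F : Set (EuclideanSpace ℝ (Fin n)), IsClosed F → (∀ u ∈ F, ‖u‖ = 1) →
      (∃ e : EuclideanSpace ℝ (Fin n), e ≠ 0 ∧ ∀ u ∈ F, (inner ℝ u e : ℝ) ≠ 0) →
      ∀ ε : ℝ, 0 < ε →
      ∃ K : Set (EuclideanSpace ℝ (Fin n)), Convex ℝ K ∧ IsCompact K ∧ (interior K).Nonempty ∧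
        Metric.closedBall 0 (1 - ε) ⊆ K ∧ K ⊆ Metric.closedBall 0 (1 + ε) ∧
        (¬ ∃ (c : EuclideanSpace ℝ (Fin n)) (r : ℝ), K = Metric.closedBall c r) ∧
        ∃ a : ENNReal, a ≠ 0 ∧ a ≠ ⊤ ∧
          (∀ u : EuclideanSpace ℝ (Fin n), ‖u‖ = 1 →
            Measure.hausdorffMeasure ((n : ℝ) - 1)
              ((fun x : EuclideanSpace ℝ (Fin n) => x - (inner ℝ x u : ℝ) • u) '' K) = a) ∧
          (∀ u : EuclideanSpace ℝ (Fin n), ‖u‖ = 1 →
            (⨆ t : ℝ, Measure.hausdorffMeasure ((n : ℝ) - 1)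
              (K ∩ {x : EuclideanSpace ℝ (Fin n) | (inner ℝ x u : ℝ) = t})) ≤ a) ∧
          (∀ u ∈ F, (⨆ t : ℝ, Measure.hausdorffMeasure ((n : ℝ) - 1)
              (K ∩ {x : EuclideanSpace ℝ (Fin n) | (inner ℝ x u : ℝ) = t})) = a) := by
  intro n hn F hFc hF1 ⟨e, he0, hFe⟩ ε hε
  have hε' : 0 < min ε (1 / 2) := lt_min hε (by norm_num)
  obtain ⟨K, hc, hcp, hb1, hb2, hnb, hbr, hsec⟩ :=
    hMain hDat hSup hBody hBri hFrame hGeo hNB hCpt n hn F e hFc hF1 he0 hFe _ hε'
  have hint : (interior K).Nonempty := by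
    refine ⟨0, ?_⟩
    have h1 : Metric.ball (0 : EuclideanSpace ℝ (Fin n)) (1 / 2) ⊆ K := by
      refine subset_trans ?_ hb1
      refine subset_trans Metric.ball_subset_closedBall ?_
      apply Metric.closedBall_subset_closedBall
      have := min_le_right ε (1 / 2)
      linarith
    exact interior_mono h1 (by rw [Metric.isOpen_ball.interior_eq]; exact Metric.mem_ball_self (by norm_num))
  refine ⟨K, hc, hcp, hint, ?_, ?_, hnb, _, ?_, ?_, hbr, ?_, hsec⟩
  · refine subset_trans (Metric.closedBall_subset_closedBall ?_) hb1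
    have := min_le_left ε (1 / 2)
    linarith
  · refine subset_trans hb2 (Metric.closedBall_subset_closedBall ?_)
    have := min_le_left ε (1 / 2)
    linarith
  · obtain ⟨m, rfl⟩ : ∃ m, n = m + 1 := ⟨n - 1, by omega⟩
    have hcast : (((m + 1 : ℕ) : ℝ) - 1) = (m : ℝ) := by push_cast; ring
    rw [hcast]
    have hfr : Module.finrank ℝ (W m) = m := by simp
    have hHaar : (Measure.hausdorffMeasure (m : ℝ) : Measure (W m)).IsAddHaarMeasure := by
      have h := MeasureTheory.isAddHaarMeasure_hausdorffMeasure (E := W m)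
      rw [hfr] at h
      exact h
    exact (Metric.measure_ball_pos (Measure.hausdorffMeasure (m : ℝ) : Measure (W m)) 0 one_pos).ne'
  · obtain ⟨m, rfl⟩ : ∃ m, n = m + 1 := ⟨n - 1, by omega⟩
    have hcast : (((m + 1 : ℕ) : ℝ) - 1) = (m : ℝ) := by push_cast; ring
    rw [hcast]
    have hfr : Module.finrank ℝ (W m) = m := by simp
    have hHaar : (Measure.hausdorffMeasure (m : ℝ) : Measure (W m)).IsAddHaarMeasure := by
      have h := MeasureTheory.isAddHaarMeasure_hausdorffMeasure (E := W m)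
      rw [hfr] at h
      exact h
    exact (measure_ball_lt_top (μ := (Measure.hausdorffMeasure (m : ℝ) : Measure (W m)))).ne
  · intro u hu
    apply iSup_le
    intro t
    obtain ⟨m, rfl⟩ : ∃ m, n = m + 1 := ⟨n - 1, by omega⟩
    have hcast : (((m + 1 : ℕ) : ℝ) - 1) = (m : ℝ) := by push_cast; ring
    rw [← hbr u hu, hcast]
    obtain ⟨J, hJ⟩ := hFrame m u hu
    exact (hGeo m J u (by omega) hJ K).2.1 t

end Pool.Helper8.TB
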