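import Pool.Agent.Helper8.TB.M_Rank
import Pool.Agent.Helper8.TB.M_Chart

set_option autoImplicit false

namespace Pool.Helper8.TB

/-- derivative of the square root factor -/
theorem hasFDerivAt_sq {m : ℕ} (y : W m) (hy : ‖y‖ < 1) :
    HasFDerivAt (fun y' : W m => Real.sqrt (1 - ‖y'‖ ^ 2))
      (-(1 / Real.sqrt (1 - ‖y‖ ^ 2)) • innerSL ℝ y) y := by
  have hs : 0 < 1 - ‖y‖ ^ 2 := by nlinarith [norm_nonneg y]
  have h1 : HasFDerivAt (fun y' : W m => 1 - ‖y'‖ ^ 2) (-((2 : ℝ) • innerSL ℝ y)) y := by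
    have h2 : HasFDerivAt (fun y' : W m => ‖y'‖ ^ 2) ((2 : ℝ) • innerSL ℝ y) y := by
      have h3 := (hasStrictFDerivAt_norm_sq y).hasFDerivAt
      have h4 : ((2 : ℕ) • innerSL ℝ y : W m →L[ℝ] ℝ) = (2 : ℝ) • innerSL ℝ y := by
        rw [two_smul, two_smul]
      rw [← h4]
      exact h3
    exact h2.const_sub 1
  have h4 := h1.sqrt hs.ne'
  have hne : Real.sqrt (1 - ‖y‖ ^ 2) ≠ 0 := (Real.sqrt_pos.mpr hs).ne'
  have h5 : (1 / (2 * Real.sqrt (1 - ‖y‖ ^ 2))) • -((2 : ℝ) • innerSL ℝ y : W m →L[ℝ] ℝ) =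
      -(1 / Real.sqrt (1 - ‖y‖ ^ 2)) • innerSL ℝ y := by
    rw [smul_neg, smul_smul, neg_smul]
    congr 2
    field_simp
  rw [← h5]
  exact h4

theorem hDer : StDer := by
  intro m τ ε q q1 p r hm hd e J u he hF y hy
  obtain ⟨hP, hJJ, hJt, h0, hnu, -⟩ := hChart m J u hF
  obtain ⟨hν1, hνu, hνpos, hJtν⟩ := hnu y hy
  set ν := nu J u y with hν
  set s := Real.sqrt (1 - ‖y‖ ^ 2) with hs
  have hspos : 0 < s := by rw [← hνu]; exact hνpos
  set t : ℝ := inner ℝ ν e with ht
  -- derivative of nu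
  let A : W m →L[ℝ] W (m + 1) := J.toContinuousLinearMap + (-(1 / s) • innerSL ℝ y).smulRight u
  have hA : HasFDerivAt (fun y' => nu J u y') A y := by
    have h1 : HasFDerivAt (fun y' : W m => J y') J.toContinuousLinearMap y :=
      J.toContinuousLinearMap.hasFDerivAt
    have h2 := (hasFDerivAt_sq y hy).smul_const u
    exact h1.add h2
  have hAv : ∀ v, A v = J v - ((inner ℝ y v : ℝ) / s) • u := by
    intro v
    have h1 : A v = J v + (-(1 / s) * inner ℝ y v) • u := rfl
    have h2 : -(1 / s) * (inner ℝ y v : ℝ) = -((inner ℝ y v : ℝ) / s) := by ring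
    rw [h1, h2, neg_smul, sub_eq_add_neg]
  have hJtA : ∀ v, Jt J (A v) = v := by
    intro v
    rw [hAv, map_sub, map_smul, h0, smul_zero, sub_zero, hJJ]
  -- derivative of X
  have hte : HasFDerivAt (fun x : W (m + 1) => (inner ℝ x e : ℝ)) (innerSL ℝ e) ν := by
    have h1 : HasFDerivAt (fun x : W (m + 1) => innerSL ℝ e x) (innerSL ℝ e) ν :=
      (innerSL ℝ e).hasFDerivAt
    convert h1 using 1
    ext x
    rw [innerSL_apply_apply, real_inner_comm]
  have hq' : HasFDerivAt (fun x : W (m + 1) => q (inner ℝ x e)) (q1 t • innerSL ℝ e) ν :=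
    (hd.hq t).comp_hasFDerivAt ν hte
  have hp' : HasFDerivAt (fun x : W (m + 1) => p (inner ℝ x e)) (r t • innerSL ℝ e) ν :=
    (hd.hp t).comp_hasFDerivAt ν hte
  have hX : HasFDerivAt (fun x : W (m + 1) => X q p e x)
      ((q t • ContinuousLinearMap.id ℝ (W (m + 1)) + (q1 t • innerSL ℝ e).smulRight ν) +
        (r t • innerSL ℝ e).smulRight e) ν := by
    exact (hq'.smul (hasFDerivAt_id ν)).add (hp'.smul_const e)
  have hc : HasFDerivAt (fun y' => X q p e (nu J u y'))
      (((q t • ContinuousLinearMap.id ℝ (W (m + 1)) + (q1 t • innerSL ℝ e).smulRight ν) +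
        (r t • innerSL ℝ e).smulRight e).comp A) y :=
    HasFDerivAt.comp (x := y) (f := fun y' => nu J u y') (g := fun x => X q p e x) hX hA
  have hfin : HasFDerivAt (fun y' => Jt J (X q p e (nu J u y')))
      ((Jt J).comp (((q t • ContinuousLinearMap.id ℝ (W (m + 1)) + (q1 t • innerSL ℝ e).smulRight ν) +
        (r t • innerSL ℝ e).smulRight e).comp A)) y :=
    HasFDerivAt.comp (x := y) (f := fun y' => X q p e (nu J u y')) (g := fun x => Jt J x) (Jt J).hasFDerivAt hc
  refine ⟨_, hfin, ?_⟩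
  set b : W (m + 1) := e - t • ν with hb
  set w : W m := Jt J e - ((inner ℝ u e : ℝ) / s) • y with hw
  have hAe : ∀ v, (inner ℝ e (A v) : ℝ) = inner ℝ w v := by
    intro v
    rw [hAv, hw, inner_sub_right, inner_sub_left, inner_smul_right, inner_smul_left, hJt]
    simp only [conj_trivial]
    rw [real_inner_comm e u]
    ring
  have hbν : (inner ℝ ν b : ℝ) = 0 := by
    rw [hb, inner_sub_right, inner_smul_right, real_inner_self_eq_norm_sq, hν1, ← ht]
    ring
  have hbe : (inner ℝ e b : ℝ) = 1 - t ^ 2 := by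
    rw [hb, inner_sub_right, inner_smul_right, real_inner_self_eq_norm_sq, he, real_inner_comm, ← ht]
    ring
  have hAb : A (Jt J b) = b := by
    rw [hAv, hP]
    have h1 : (inner ℝ y (Jt J b) : ℝ) = - (s * inner ℝ b u) := by
      have h2 : J y = ν - s • u := by rw [hν]; unfold nu; rw [← hs]; abel
      rw [real_inner_comm, hJt, h2, inner_sub_right, inner_smul_right, real_inner_comm, hbν]
      ring
    have h3 : -(s * (inner ℝ b u : ℝ)) / s = - (inner ℝ b u : ℝ) := by field_simp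
    rw [h1, h3]
    module
  have hM : ∀ v, ((Jt J).comp (((q t • ContinuousLinearMap.id ℝ (W (m + 1)) + (q1 t • innerSL ℝ e).smulRight ν) +
        (r t • innerSL ℝ e).smulRight e).comp A)) v = q t • v + (r t * inner ℝ w v) • Jt J b := by
    intro v
    have h2 : ((Jt J).comp (((q t • ContinuousLinearMap.id ℝ (W (m + 1)) + (q1 t • innerSL ℝ e).smulRight ν) +
        (r t • innerSL ℝ e).smulRight e).comp A)) v =
        Jt J ((q t • A v + (q1 t * inner ℝ e (A v)) • ν) + (r t * inner ℝ e (A v)) • e) := rfl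
    rw [h2, hAe, map_add, map_add, map_smul, hJtA, map_smul, map_smul]
    have h1 : q1 t = - (t * r t) := by rw [hd.hr]; ring
    rw [h1, hb, map_sub, map_smul]
    module
  rw [hRank m (q t) (r t) w (Jt J b) hm (hd.pos t).ne' _ hM]
  rw [← hAe, hAb, hbe]
  unfold fd
  ring

end Pool.Helper8.TB
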