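import Pool.Agent.Helper8.TB.St

set_option autoImplicit false

namespace Pool.Helper8.TB

open MeasureTheory

/-- unit vectors orthogonal to `u` have small `e` coordinate -/
theorem coord_le {n : ℕ} {e u x : W n} (he : ‖e‖ = 1) (hu : ‖u‖ = 1) (hx : ‖x‖ = 1)
    (hxu : (inner ℝ x u : ℝ) = 0) {δ : ℝ} (hδ : 0 < δ) (h : δ ≤ |(inner ℝ u e : ℝ)|) :
    |(inner ℝ x e : ℝ)| ≤ Real.sqrt (1 - δ ^ 2) := by
  set a : ℝ := inner ℝ x e with ha
  set c : ℝ := inner ℝ u e with hc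
  have h1 : 0 ≤ ‖e - a • x - c • u‖ ^ 2 := by positivity
  have h2 : ‖e - a • x - c • u‖ ^ 2 = 1 - a ^ 2 - c ^ 2 := by
    rw [← real_inner_self_eq_norm_sq]
    simp only [inner_sub_left, inner_sub_right, inner_smul_left, inner_smul_right, conj_trivial]
    rw [real_inner_self_eq_norm_sq, real_inner_self_eq_norm_sq, real_inner_self_eq_norm_sq, he, hu, hx,
      real_inner_comm x e, real_inner_comm u e, real_inner_comm x u, hxu, ← ha, ← hc]
    ring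
  have h3 : δ ^ 2 ≤ c ^ 2 := by
    rw [← sq_abs c]
    exact pow_le_pow_left₀ hδ.le h 2
  apply Real.abs_le_sqrt
  linarith

theorem hMain (hDat : StDat) (hSup : StSup) (hBody : StBody) (hBri : StBri) (hFrame : StFrame)
    (hGeo : StGeo) (hNB : StNB) (hCpt : StCpt) :
    ∀ n : ℕ, 3 ≤ n → ∀ (F : Set (EuclideanSpace ℝ (Fin n))) (e : EuclideanSpace ℝ (Fin n)),
      IsClosed F → (∀ u ∈ F, ‖u‖ = 1) → e ≠ 0 → (∀ u ∈ F, (inner ℝ u e : ℝ) ≠ 0) → ∀ ε : ℝ, 0 < ε →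
      ∃ K : Set (EuclideanSpace ℝ (Fin n)), Convex ℝ K ∧ IsCompact K ∧
        Metric.closedBall 0 (1 - ε) ⊆ K ∧ K ⊆ Metric.closedBall 0 (1 + ε) ∧
        (¬ ∃ (c : EuclideanSpace ℝ (Fin n)) (r : ℝ), K = Metric.closedBall c r) ∧
        (∀ u : EuclideanSpace ℝ (Fin n), ‖u‖ = 1 →
          Measure.hausdorffMeasure ((n : ℝ) - 1)
            ((fun x : EuclideanSpace ℝ (Fin n) => x - (inner ℝ x u : ℝ) • u) '' K) =
          Measure.hausdorffMeasure ((n : ℝ) - 1) (Metric.ball (0 : EuclideanSpace ℝ (Fin (n - 1))) 1)) ∧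
        (∀ u ∈ F, (⨆ t : ℝ, Measure.hausdorffMeasure ((n : ℝ) - 1)
            (K ∩ {x : EuclideanSpace ℝ (Fin n) | (inner ℝ x u : ℝ) = t})) =
          Measure.hausdorffMeasure ((n : ℝ) - 1) (Metric.ball (0 : EuclideanSpace ℝ (Fin (n - 1))) 1)) := by
  intro n hn F e0 hFc hF1 he0 hFe ε hε
  obtain ⟨m, rfl⟩ : ∃ m, n = m + 1 := ⟨n - 1, by omega⟩
  have hm : 1 ≤ m := by omega
  have hcast : (((m + 1 : ℕ) : ℝ) - 1) = (m : ℝ) := by push_cast; ring
  have hm1 : m + 1 - 1 = m := rfl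
  rw [hcast]
  change ∃ K : Set (W (m + 1)), Convex ℝ K ∧ IsCompact K ∧
        Metric.closedBall 0 (1 - ε) ⊆ K ∧ K ⊆ Metric.closedBall 0 (1 + ε) ∧
        (¬ ∃ (c : W (m + 1)) (r : ℝ), K = Metric.closedBall c r) ∧
        (∀ u : W (m + 1), ‖u‖ = 1 →
          Measure.hausdorffMeasure (m : ℝ)
            ((fun x : W (m + 1) => x - (inner ℝ x u : ℝ) • u) '' K) =
          Measure.hausdorffMeasure (m : ℝ) (Metric.ball (0 : W m) 1)) ∧
        (∀ u ∈ F, (⨆ t : ℝ, Measure.hausdorffMeasure (m : ℝ)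
            (K ∩ {x : W (m + 1) | (inner ℝ x u : ℝ) = t})) =
          Measure.hausdorffMeasure (m : ℝ) (Metric.ball (0 : W m) 1))
  set e : W (m + 1) := ‖e0‖⁻¹ • e0 with he
  have hne : ‖e0‖ ≠ 0 := norm_ne_zero_iff.mpr he0
  have he1 : ‖e‖ = 1 := by
    rw [he, norm_smul, norm_inv, norm_norm, inv_mul_cancel₀ hne]
  have hFe' : ∀ u ∈ F, (inner ℝ u e : ℝ) ≠ 0 := by
    intro u hu
    rw [he, inner_smul_right]
    exact mul_ne_zero (inv_ne_zero hne) (hFe u hu)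
  obtain ⟨δ, hδ0, hδ1, hδ⟩ := hCpt (m + 1) F e hFc hF1 hFe'
  set τ := Real.sqrt (1 - δ ^ 2) with hτ
  have hτ0 : 0 < τ := Real.sqrt_pos.mpr (by nlinarith)
  have hτ1 : τ < 1 := by
    rw [hτ, Real.sqrt_lt' one_pos]
    nlinarith [sq_pos_of_pos hδ0]
  obtain ⟨q, q1, p, r, hd⟩ := hDat m τ ε hm hτ0 hτ1 hε
  obtain ⟨hc, hcp, hb1, hb2⟩ := hBody (m + 1) m τ ε q q1 p r hd e he1
  have hX : ∀ ν : W (m + 1), ‖ν‖ = 1 → X q p e ν ∈ Bd q p e := by
    intro ν hν ω hω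
    exact (hSup (m + 1) m τ ε q q1 p r hd e ν ω he1 hν hω).1
  have hfr : Module.finrank ℝ (W m) = m := by simp
  have hHaar : (Measure.hausdorffMeasure (m : ℝ) : Measure (W m)).IsAddHaarMeasure := by
    have h := MeasureTheory.isAddHaarMeasure_hausdorffMeasure (E := W m)
    rw [hfr] at h
    exact h
  have hbr : ∀ u : W (m + 1), ‖u‖ = 1 →
          Measure.hausdorffMeasure (m : ℝ)
            ((fun x : W (m + 1) => x - (inner ℝ x u : ℝ) • u) '' Bd q p e) =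
          Measure.hausdorffMeasure (m : ℝ) (Metric.ball (0 : W m) 1) := by
    intro u hu
    obtain ⟨J, hJ⟩ := hFrame m u hu
    rw [(hGeo m J u hm hJ (Bd q p e)).1]
    exact hBri m τ ε q q1 p r hm hd e J u he1 hJ _ hHaar
  refine ⟨Bd q p e, hc, hcp, hb1, hb2, hNB m τ ε q q1 p r hm hτ0 hτ1 hd e he1, hbr, ?_⟩
  intro u hu
  have hu1 := hF1 u hu
  obtain ⟨J, hJ⟩ := hFrame m u hu1
  obtain ⟨-, hg2, hg3⟩ := hGeo m J u hm hJ (Bd q p e)
  apply le_antisymm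
  · apply iSup_le
    intro t
    rw [← hbr u hu1]
    exact hg2 t
  · refine le_trans (hg3 hc ?_) (le_iSup (fun t : ℝ => Measure.hausdorffMeasure (m : ℝ)
            (Bd q p e ∩ {x : W (m + 1) | (inner ℝ x u : ℝ) = t})) 0)
    intro x hx hxu
    have h1 := coord_le he1 hu1 hx hxu hδ0 (hδ u hu)
    rw [← hτ] at h1
    have h2 := hX x hx
    unfold X at h2
    rw [hd.flq _ h1, hd.flp _ h1, one_smul, zero_smul, add_zero] at h2
    exact h2

end Pool.Helper8.TB
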