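import Pool.Agent.Helper8.TB.St

set_option autoImplicit false

namespace Pool.Helper8.TB

theorem hRank : StRank := by
  intro m a c w z hm ha M hM
  have h1 : (M : W m →ₗ[ℝ] W m) = a • LinearMap.transvection ((c / a) • (innerₗ (W m) w)) z := by
    ext1 v
    rw [ContinuousLinearMap.coe_coe, hM, LinearMap.smul_apply, LinearMap.transvection.apply]
    simp only [LinearMap.smul_apply, innerₗ_apply_apply, smul_eq_mul, smul_add, smul_smul]
    congr 2
    field_simp
  have h2 : M.det = LinearMap.det (M : W m →ₗ[ℝ] W m) := rfl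
  rw [h2, h1, LinearMap.det_smul, LinearMap.transvection.det]
  rw [finrank_euclideanSpace, Fintype.card_fin]
  obtain ⟨k, rfl⟩ : ∃ k, m = k + 1 := ⟨m - 1, by omega⟩
  simp only [Nat.add_sub_cancel, pow_succ, LinearMap.smul_apply, innerₗ_apply_apply, smul_eq_mul]
  field_simp

end Pool.Helper8.TB
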