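import Mathlib

/-!
# Statements of project TB (MP_26ac92_gt, ThinBand)

For every closed set `F` of directions that misses one hyperplane there is a convex body, not a ball, all projections
of which have the same volume `a`, and whose largest section orthogonal to `u` has volume `a` for all `u` in `F`.

The body is `K = Bd q p e` (`e` a unit vector), the boundary point with outer normal `ν` is
`X q p e ν = q t • ν + p t • e`, `t = ⟪ν, e⟫`.  Every docstring contains a complete proof.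
-/

set_option autoImplicit false

namespace Pool.Helper8.TB

open MeasureTheory

/-- The dimension `m` space. -/
abbrev W (m : ℕ) := EuclideanSpace ℝ (Fin m)

/-- The data.  `q1 = q'`, `r = p'`. -/
structure Dat (m : ℕ) (τ ε : ℝ) (q q1 p r : ℝ → ℝ) : Prop where
  hq : ∀ t, HasDerivAt q (q1 t) t
  hp : ∀ t, HasDerivAt p (r t) t
  hr : ∀ t, t * r t = - q1 t
  cr : Continuous r
  pos : ∀ t, 0 < q t
  cvx : ∀ t, t ^ 2 ≤ 1 → 0 < q t + (1 - t ^ 2) * r t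
  sym : ∀ t, q t ^ m + q (-t) ^ m = 2
  r0 : r 0 = 0
  flq : ∀ t, |t| ≤ τ → q t = 1
  flp : ∀ t, |t| ≤ τ → p t = 0
  nt : ∃ t, t ^ 2 ≤ 1 ∧ q t ≠ 1
  sm : ∀ t, t ^ 2 ≤ 1 → |q t - 1| ≤ ε / 2 ∧ |p t| ≤ ε / 2

/-- Boundary point with outer normal `ν` (for unit `ν`), defined for all `ν`. -/
noncomputable def X {E : Type} [NormedAddCommGroup E] [InnerProductSpace ℝ E] (q p : ℝ → ℝ) (e ν : E) : E :=
  q (inner ℝ ν e) • ν + p (inner ℝ ν e) • e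

/-- Support function (for unit `ν`), `t = ⟪ν, e⟫`. -/
noncomputable def hh {E : Type} [NormedAddCommGroup E] [InnerProductSpace ℝ E] (q p : ℝ → ℝ) (e ν : E) : ℝ :=
  q (inner ℝ ν e) + inner ℝ ν e * p (inner ℝ ν e)

/-- The body. -/
def Bd {E : Type} [NormedAddCommGroup E] [InnerProductSpace ℝ E] (q p : ℝ → ℝ) (e : E) : Set E :=
  {x | ∀ ν : E, ‖ν‖ = 1 → inner ℝ x ν ≤ hh q p e ν}

/-- The density: product of the principal radii of curvature. -/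
noncomputable def fd (m : ℕ) (q r : ℝ → ℝ) (t : ℝ) : ℝ := q t ^ (m - 1) * (q t + (1 - t ^ 2) * r t)

/-- Adjoint of the isometric embedding `J`. -/
noncomputable def Jt {m : ℕ} (J : W m →ₗᵢ[ℝ] W (m + 1)) : W (m + 1) →L[ℝ] W m :=
  ContinuousLinearMap.adjoint J.toContinuousLinearMap

/-- The upper hemisphere as a graph over the ball of `u^⊥`. -/
noncomputable def nu {m : ℕ} (J : W m →ₗᵢ[ℝ] W (m + 1)) (u : W (m + 1)) (y : W m) : W (m + 1) :=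
  J y + Real.sqrt (1 - ‖y‖ ^ 2) • u

/-- Frame: `u` is a unit vector and `J` embeds `W m` onto `u^⊥`. -/
structure Frame {m : ℕ} (J : W m →ₗᵢ[ℝ] W (m + 1)) (u : W (m + 1)) : Prop where
  hu : ‖u‖ = 1
  hJ : ∀ y, inner ℝ (J y) u = 0

/-! ## 1. the data -/

/-- StDat.  Let `β` be a smooth bump function on `ℝ` with `0 ≤ β ≤ 1`, `β c = 1` for `c = (1 + τ) / 2`, and `β = 0` outside the ball of radius `(1 - τ) / 4` about `c` (`ContDiffBump`), `B` a bound for `|β'|`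
(continuous with compact support).  For small `η > 0` let `E t = η (β t - β (-t))` (odd, `|E| ≤ η`, `|E'| ≤ 2 η B`, zero for `|t| ≤ τ` and in a neighbourhood of this interval), `q t = (1 + E t) ^ (1/m)` (real power), `q1 = q'`, `r t = - q1 t / t`
(so `r = 0` for `|t| ≤ τ`; continuous, since it vanishes near `0`), `p t = ∫ s in 0..t, r s`.  `q t ^ m + q (-t) ^ m = (1 + E t) + (1 - E t) = 2`.  For `η ≤ 1/2`: `|q - 1| ≤ |E| ≤ η` (as `1 - η ≤ (1 ± ..)^(1/m) ≤ 1 + η`),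
`|q1| ≤ C η`, `|r| ≤ C η / τ`, `|p t| ≤ C η / τ` for `|t| ≤ 1`, and `q + (1 - t²) r ≥ 1 - η - C η / τ > 0` for small `η`.  `q c ≠ 1`. -/
def StDat : Prop := ∀ (m : ℕ) (τ ε : ℝ), 1 ≤ m → 0 < τ → τ < 1 → 0 < ε → ∃ q q1 p r : ℝ → ℝ, Dat m τ ε q q1 p r

/-- StSymF.  `t ≠ 0`: differentiate `sym`: `m q(t)^(m-1) q1(t) = m q(-t)^(m-1) q1(-t)`; with `q1 t = - t r t`, `q1 (-t) = t r (-t)`: `q(t)^(m-1) r(t) + q(-t)^(m-1) r(-t) = 0`.  This also holds for `t = 0` (`r0`).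
Multiply by `1 - t²` and add `sym` (`q^m = q^(m-1) q`, `m ≥ 1`). -/
def StSymF : Prop := ∀ (m : ℕ) (τ ε : ℝ) (q q1 p r : ℝ → ℝ), 1 ≤ m → Dat m τ ε q q1 p r →
  ∀ t : ℝ, fd m q r t + fd m q r (-t) = 2

/-! ## 2. the support function -/

/-- StAng.  Put `t = cos α`, `s = cos β` with `α, β ∈ [0, π]` (`Real.arccos`).  Let `ψ α = q (cos α) cos (α - β) + p (cos α) cos β`; the left side is `ψ α`, the right side `ψ β`.  With `q1 t = - t r t` and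
`cos β = cos α cos (α - β) + sin α sin (α - β)` one gets `ψ' α = - sin (α - β) (q + (1 - t²) r)` (`t = cos α`), which is positive for `0 ≤ α < β` except possibly at `α = β - π`, negative for `β < α ≤ π` except possibly at `α = β + π`.  So `ψ` is strictly increasing on `[0, β]`
and strictly decreasing on `[β, π]` (`strictMonoOn_of_deriv_pos`, interior points only). -/
def StAng : Prop := ∀ (m : ℕ) (τ ε : ℝ) (q q1 p r : ℝ → ℝ), Dat m τ ε q q1 p r →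
  ∀ t s : ℝ, t ^ 2 ≤ 1 → s ^ 2 ≤ 1 →
    q t * (t * s + Real.sqrt (1 - t ^ 2) * Real.sqrt (1 - s ^ 2)) + p t * s ≤ q s + s * p s ∧
    (q t * (t * s + Real.sqrt (1 - t ^ 2) * Real.sqrt (1 - s ^ 2)) + p t * s = q s + s * p s → t = s)

/-- StSup.  `t = ⟪ν, e⟫`, `s = ⟪ω, e⟫`.  `ν - t e`, `ω - s e` are orthogonal to `e`, of norms `√(1 - t²)`, `√(1 - s²)`, so `⟪ν, ω⟫ ≤ t s + √(1 - t²) √(1 - s²)` (Cauchy-Schwarz).  `q t > 0`: StAng gives the inequality.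
Equality: `t = s` (StAng) and then `q t ⟪ν, ω⟫ + p t t = q t + t p t`, so `⟪ν, ω⟫ = 1`, `ν = ω` (`inner_eq_one_iff_of_norm_one` or similar). -/
def StSup : Prop := ∀ (n m : ℕ) (τ ε : ℝ) (q q1 p r : ℝ → ℝ), Dat m τ ε q q1 p r →
  ∀ e ν ω : W n, ‖e‖ = 1 → ‖ν‖ = 1 → ‖ω‖ = 1 →
    inner ℝ (X q p e ν) ω ≤ hh q p e ω ∧ (inner ℝ (X q p e ν) ω = hh q p e ω → ν = ω)

/-- StFace.  Let `H y = ‖y‖ q (t y) + ⟪y, e⟫ p (t y)`, `t y = ⟪y, e⟫ / ‖y‖` for `y ≠ 0`.  `H y = ‖y‖ hh (y / ‖y‖) ≥ ⟪x, y⟫` with equality at `y = ν`; so `H - ⟪x, ·⟫` has a local minimum at `ν` and its derivative there is `0`.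
The derivative of `H` at the unit vector `ν` is `k ↦ q ⟪ν, k⟫ + p ⟪e, k⟫ + (q1 + t r) dt(k)` with `q1 + t r = 0` (`hr`), i.e. `⟪X ν, ·⟫`.  So `x = X ν`. -/
def StFace : Prop := ∀ (n m : ℕ) (τ ε : ℝ) (q q1 p r : ℝ → ℝ), Dat m τ ε q q1 p r →
  ∀ e ν x : W n, ‖e‖ = 1 → ‖ν‖ = 1 → x ∈ Bd q p e → inner ℝ x ν = hh q p e ν → x = X q p e ν

/-- StBody.  `Bd` is an intersection of closed half spaces.  `|hh - 1| ≤ |q - 1| + |t| |p| ≤ ε` (`sm`, `|t| ≤ 1`).  `‖x‖ ≤ 1 - ε`: `⟪x, ν⟫ ≤ ‖x‖ ≤ 1 - ε ≤ hh`.  `x ∈ Bd`, `x ≠ 0`: take `ν = x / ‖x‖`, so `‖x‖ ≤ hh ≤ 1 + ε`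
(`x = 0`: `0 ≤ 1 + ε`, since `0 ≤ ε` by `sm`).  Bounded and closed: compact. -/
def StBody : Prop := ∀ (n m : ℕ) (τ ε : ℝ) (q q1 p r : ℝ → ℝ), Dat m τ ε q q1 p r →
  ∀ e : W n, ‖e‖ = 1 → Convex ℝ (Bd q p e) ∧ IsCompact (Bd q p e) ∧ Metric.closedBall 0 (1 - ε) ⊆ Bd q p e ∧
    Bd q p e ⊆ Metric.closedBall 0 (1 + ε)

/-! ## 3. the chart of a projection -/

/-- StChart.  `J (Jt x)` is the orthogonal projection of `x` to the range of `J`, which is `u^⊥` (dimension `m`; it is contained in `u^⊥` and has the same dimension), hence `x - ⟪x, u⟫ u`.  `Jt (J y) = y`, `⟪Jt x, y⟫ = ⟪x, J y⟫` (adjoint), `Jt u = 0`.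
`‖nu y‖² = ‖y‖² + (1 - ‖y‖²) = 1`.  Last part: `y = Jt ν`, `ν = J y + ⟪ν, u⟫ u`, `1 = ‖y‖² + ⟪ν, u⟫²`. -/
def StChart : Prop := ∀ (m : ℕ) (J : W m →ₗᵢ[ℝ] W (m + 1)) (u : W (m + 1)), Frame J u →
  (∀ x, J (Jt J x) = x - (inner ℝ x u : ℝ) • u) ∧ (∀ y, Jt J (J y) = y) ∧ (∀ x y, (inner ℝ (Jt J x) y : ℝ) = inner ℝ x (J y)) ∧
  Jt J u = 0 ∧
  (∀ y, ‖y‖ < 1 → ‖nu J u y‖ = 1 ∧ (inner ℝ (nu J u y) u : ℝ) = Real.sqrt (1 - ‖y‖ ^ 2) ∧ 0 < (inner ℝ (nu J u y) u : ℝ) ∧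
    Jt J (nu J u y) = y) ∧
  (∀ ν : W (m + 1), ‖ν‖ = 1 → 0 < (inner ℝ ν u : ℝ) → ∃ y, ‖y‖ < 1 ∧ nu J u y = ν)

/-- StRank.  `det (a • id + c • (v ↦ ⟪w, v⟫ z)) = a ^ (m - 1) (a + c ⟪w, z⟫)` for `a ≠ 0`: it is `a ^ m det (id + (c / a) w ⊗ z)`, and `det (id + x ⊗ y) = 1 + ⟪x, y⟫` (`LinearMap.transvection.det` / `Matrix.det_one_add_replicateCol_mul_replicateRow`). -/
def StRank : Prop := ∀ (m : ℕ) (a c : ℝ) (w z : W m), 1 ≤ m → a ≠ 0 →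
  ∀ M : W m →L[ℝ] W m, (∀ v, M v = a • v + (c * inner ℝ w v) • z) → M.det = a ^ (m - 1) * (a + c * inner ℝ w z)

/-- StDer.  `ν = nu y`, `s = √(1 - ‖y‖²) > 0`, `t = ⟪ν, e⟫`.  `nu` has the derivative `A v = J v - (⟪y, v⟫ / s) u` at `y`, `⟪ν, A v⟫ = ⟪y, v⟫ - ⟪y, v⟫ = 0`, `Jt (A v) = v`.  `X` has at `ν` the derivative
`w ↦ q w + (q1 ⟪w, e⟫) ν + (r ⟪w, e⟫) e = q w + r ⟪w, e⟫ b`, `b = e - t ν` (`q1 = - t r`).  So the derivative of `y ↦ Jt (X (nu y))` is `M v = q v + r ⟪A v, e⟫ Jt b`.  `⟪A v, e⟫ = ⟪v, w⟫` with `w = Jt e - (⟪u, e⟫ / s) y`.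
StRank: `det M = q^(m-1) (q + r ⟪w, Jt b⟫)`, and `⟪w, Jt b⟫ = ⟪e, A (Jt b)⟫ = ⟪e, b⟫ = 1 - t²`, because `b ⊥ ν` gives `A (Jt b) = b` (`Jt b = b - ⟪b, u⟫ u` under `J`; `⟪y, Jt b⟫ = ⟪J y, b⟫ = ⟪ν - s u, b⟫ = - s ⟪u, b⟫`). -/
def StDer : Prop := ∀ (m : ℕ) (τ ε : ℝ) (q q1 p r : ℝ → ℝ), 1 ≤ m → Dat m τ ε q q1 p r →
  ∀ (e : W (m + 1)) (J : W m →ₗᵢ[ℝ] W (m + 1)) (u : W (m + 1)), ‖e‖ = 1 → Frame J u →
  ∀ y : W m, ‖y‖ < 1 → ∃ M : W m →L[ℝ] W m, HasFDerivAt (fun y' => Jt J (X q p e (nu J u y'))) M y ∧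
    M.det = fd m q r (inner ℝ (nu J u y) e)

/-- StInj.  Let `Jt (X ν) = Jt (X ν')`, `ν = nu y`, `ν' = nu y'`.  Then `X ν' = X ν + c u` (StChart), and we may assume `c ≥ 0` (otherwise exchange).  `⟪X ν', ν⟫ ≤ hh ν` (StSup) and `⟪X ν, ν⟫ = hh ν` (`‖ν‖ = 1`), so `c ⟪u, ν⟫ ≤ 0`, `c = 0` (`⟪u, ν⟫ > 0`).
Then `⟪X ν', ν⟫ = hh ν`, so `ν' = ν` (StSup), `y = Jt ν = Jt ν' = y'`. -/
def StInj : Prop := ∀ (m : ℕ) (τ ε : ℝ) (q q1 p r : ℝ → ℝ), Dat m τ ε q q1 p r →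
  ∀ (e : W (m + 1)) (J : W m →ₗᵢ[ℝ] W (m + 1)) (u : W (m + 1)), ‖e‖ = 1 → Frame J u →
  Set.InjOn (fun y' => Jt J (X q p e (nu J u y'))) (Metric.ball 0 1)

/-- StSur.  `K = Bd q p e`.  First part: `X ν ∈ K` (StSup).  Second part: let `a` be interior to `L = Jt '' K`.  The set of the `x ∈ K` with `Jt x = a` is compact and not empty; let `x` be one with `⟪x, u⟫` largest.  For `k ≥ 1` the point `x + u / k` is not in `K`
(`Jt u = 0`), so there is a unit `ν_k` with `⟪x + u / k, ν_k⟫ > hh ν_k ≥ ⟪x, ν_k⟫`, in particular `⟪u, ν_k⟫ > 0`.  A subsequence converges to a unit vector `ν` with `⟪x, ν⟫ ≥ hh ν`, so `⟪x, ν⟫ = hh ν`, and `⟪u, ν⟫ ≥ 0` (`hh` is continuous).  If `⟪u, ν⟫ = 0`: `ν = J η` with `η = Jt ν`, `‖η‖ = 1`, and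
`⟪a, η⟫ = ⟪x, ν⟫ = hh ν`; for small `δ > 0` `a + δ η = Jt x'` with `x' ∈ K`, and `⟪a, η⟫ + δ = ⟪x', ν⟫ ≤ hh ν`, contradiction.  So `⟪u, ν⟫ > 0`, `ν = nu y` (StChart), `x = X ν` (StFace), `a = Jt (X (nu y))`. -/
def StSur : Prop := ∀ (m : ℕ) (τ ε : ℝ) (q q1 p r : ℝ → ℝ), Dat m τ ε q q1 p r →
  ∀ (e : W (m + 1)) (J : W m →ₗᵢ[ℝ] W (m + 1)) (u : W (m + 1)), ‖e‖ = 1 → Frame J u →
  (fun y' => Jt J (X q p e (nu J u y'))) '' Metric.ball 0 1 ⊆ Jt J '' Bd q p e ∧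
  interior (Jt J '' Bd q p e) ⊆ (fun y' => Jt J (X q p e (nu J u y'))) '' Metric.ball 0 1

/-- StVol.  `L = Jt '' Bd` is convex and compact (StBody), so its frontier is a null set (`Convex.addHaar_frontier`); `interior L ⊆ Φ '' ball ⊆ L` (StSur), so `μ L = μ (Φ '' ball)`; `Φ` is injective on the ball (StInj) with derivative of determinant `fd > 0` (StDer):
`lintegral_abs_det_fderiv_eq_addHaar_image`.  (`fd > 0`: `pos`, `cvx`, `t² ≤ 1` by Cauchy-Schwarz.) -/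
def StVol : Prop := ∀ (m : ℕ) (τ ε : ℝ) (q q1 p r : ℝ → ℝ), 1 ≤ m → Dat m τ ε q q1 p r →
  ∀ (e : W (m + 1)) (J : W m →ₗᵢ[ℝ] W (m + 1)) (u : W (m + 1)), ‖e‖ = 1 → Frame J u →
  ∀ (μ : Measure (W m)), μ.IsAddHaarMeasure →
  μ (Jt J '' Bd q p e) = ∫⁻ y in Metric.ball 0 1, ENNReal.ofReal (fd m q r (inner ℝ (nu J u y) e)) ∂μ

/-- StBri.  StVol for `u` and for `-u` (`Frame J (-u)`); substitute `y ↦ -y` in the second (`nu J (-u) (-y) = - nu J u y`; `μ` is invariant under `y ↦ -y`).  The sum is `2 μ L = ∫⁻_ball (fd t + fd (-t)) = 2 μ (ball)` (StSymF, `fd ≥ 0` on `[-1, 1]`, `ENNReal.ofReal_add`,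
measurability: `fd` is continuous: `q` is differentiable, `cr`).  Divide by 2. -/
def StBri : Prop := ∀ (m : ℕ) (τ ε : ℝ) (q q1 p r : ℝ → ℝ), 1 ≤ m → Dat m τ ε q q1 p r →
  ∀ (e : W (m + 1)) (J : W m →ₗᵢ[ℝ] W (m + 1)) (u : W (m + 1)), ‖e‖ = 1 → Frame J u →
  ∀ (μ : Measure (W m)), μ.IsAddHaarMeasure → μ (Jt J '' Bd q p e) = μ (Metric.ball 0 1)

/-! ## 4. Hausdorff measure -/

/-- StFrame.  The orthogonal complement of the line spanned by `u` has dimension `m` (`finrank_orthogonal_span_singleton`), so it is linearly isometric to `W m` (`stdOrthonormalBasis .. repr`, or `LinearIsometryEquiv.ofFinrankEq..`); compose with the inclusion. -/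
def StFrame : Prop := ∀ (m : ℕ) (u : W (m + 1)), ‖u‖ = 1 → ∃ J : W m →ₗᵢ[ℝ] W (m + 1), Frame J u

/-- StGeo.  (1) `x - ⟪x, u⟫ u = J (Jt x)` (StChart), so the set is `J '' (Jt '' K)`; isometries preserve `μH` (`Isometry.hausdorffMeasure_image`).  (2) On the slice `⟪x, u⟫ = t` the map `x ↦ x - ⟪x, u⟫ u` is `x ↦ x - t u`, an isometry; the image of `K ∩ slice` is contained in the projection of `K`.
(3) `J y` for `‖y‖ ≤ 1` lies in `K ∩ {⟪x, u⟫ = 0}`: for `y = 0` and `y ≠ 0` it is a convex combination of `± J (y / ‖y‖)` (`m ≥ 1`: if `y = 0` take any unit vector `y0` and `0 = (J y0 + J (-y0)) / 2`); so `μH (K ∩ ..) ≥ μH (J '' closedBall 0 1) = μH (closedBall 0 1) ≥ μH (ball 0 1)`. -/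
def StGeo : Prop := ∀ (m : ℕ) (J : W m →ₗᵢ[ℝ] W (m + 1)) (u : W (m + 1)), 1 ≤ m → Frame J u → ∀ K : Set (W (m + 1)),
  Measure.hausdorffMeasure (m : ℝ) ((fun x : W (m + 1) => x - (inner ℝ x u : ℝ) • u) '' K) = Measure.hausdorffMeasure (m : ℝ) (Jt J '' K) ∧
  (∀ t : ℝ, Measure.hausdorffMeasure (m : ℝ) (K ∩ {x : W (m + 1) | (inner ℝ x u : ℝ) = t}) ≤
    Measure.hausdorffMeasure (m : ℝ) ((fun x : W (m + 1) => x - (inner ℝ x u : ℝ) • u) '' K)) ∧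
  (Convex ℝ K → (∀ x : W (m + 1), ‖x‖ = 1 → (inner ℝ x u : ℝ) = 0 → x ∈ K) →
    Measure.hausdorffMeasure (m : ℝ) (Metric.ball (0 : W m) 1) ≤
      Measure.hausdorffMeasure (m : ℝ) (K ∩ {x : W (m + 1) | (inner ℝ x u : ℝ) = 0}))

/-! ## 5. conclusion -/

/-- StNB.  Suppose `Bd q p e = closedBall c ρ`.  It is not empty (`X e` is in it), so `ρ ≥ 0`.  For unit `ν` the maximum of `⟪x, ν⟫` on `Bd` is `hh ν` (attained at `X ν`, StSup) and on the ball `⟪c, ν⟫ + ρ`.  So `hh ν = ⟪c, ν⟫ + ρ` for all unit `ν`.  For `ν ⊥ e` (`t = 0`): `1 = ⟪c, ν⟫ + ρ`, also for `-ν`: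
`⟪c, ν⟫ = 0`, `ρ = 1` (there is such `ν` as `m ≥ 1`); so `c = κ e`.  For unit `ν` with `⟪ν, e⟫ = τ`: `1 = κ τ + 1`, `κ = 0`.  So `hh = 1`: `q t + t p t = 1` for all `t ∈ [-1, 1]`.  The derivative of `q t + t p t` is `q1 + p + t r = p`, so `p = 0` on `(-1, 1)`, on `[-1, 1]` by continuity, and `q = 1` there, contradiction to `nt`. -/
def StNB : Prop := ∀ (m : ℕ) (τ ε : ℝ) (q q1 p r : ℝ → ℝ), 1 ≤ m → 0 < τ → τ < 1 → Dat m τ ε q q1 p r →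
  ∀ e : W (m + 1), ‖e‖ = 1 → ¬ ∃ (c : W (m + 1)) (ρ : ℝ), Bd q p e = Metric.closedBall c ρ

/-- StCpt.  `F` is compact and `u ↦ |⟪u, e⟫|` continuous and positive on `F`: a minimum `δ0 > 0` (if `F` is empty take `δ = 1/2`); `δ = min δ0 (1/2)`. -/
def StCpt : Prop := ∀ (n : ℕ) (F : Set (W n)) (e : W n), IsClosed F → (∀ u ∈ F, ‖u‖ = 1) → (∀ u ∈ F, (inner ℝ u e : ℝ) ≠ 0) →
  ∃ δ : ℝ, 0 < δ ∧ δ < 1 ∧ ∀ u ∈ F, δ ≤ |(inner ℝ u e : ℝ)|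

end Pool.Helper8.TB
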